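import Pool.Agent.Helper61.IR.FIN

/-!
# MP_87963b_co, Q2: disproved

There is a hereditary class of graphs of functionality at most 30000 which admits no implicit
representation: for no constant `c` and no decoder `D` whatever (computable or not) do all `n`-vertex
members of the class have vertex labels of at most `c * log₂ n` bits from which `D` decides adjacency.
-/

namespace Pool.Agent.Results.MP_87963b_co.NoImplicitRepresentation

/-- A class of finite graphs, given by its members on the vertex sets `Fin n`, is hereditary: closed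
under taking induced subgraphs and isomorphic copies. -/
def Hereditary (X : ∀ n : ℕ, SimpleGraph (Fin n) → Prop) : Prop :=
  ∀ (n m : ℕ) (G : SimpleGraph (Fin n)) (f : Fin m ↪ Fin n), X n G → X m (G.comap f)

/-- In the graph `G` the vertex `y` is a function of the vertices `x 0, …, x (k-1)`, all different
from `y`: adjacency of `y` to any further vertex `z` is determined by a fixed Boolean function from
the adjacencies of `x 0, …, x (k-1)` to `z`. -/
def IsFunctionOf {n k : ℕ} (G : SimpleGraph (Fin n)) (y : Fin n) (x : Fin k → Fin n) : Prop :=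
  (∀ i, x i ≠ y) ∧ ∃ f : (Fin k → Prop) → Prop, ∀ z, z ≠ y → (∀ i, z ≠ x i) →
    (G.Adj y z ↔ f (fun i => G.Adj (x i) z))

/-- The functionality of `G` is at most `k`: every nonempty induced subgraph `H` of `G` has a vertex
`y` which, in `H`, is a function of at most `k` vertices. -/
def FunctionalityLE {n : ℕ} (G : SimpleGraph (Fin n)) (k : ℕ) : Prop :=
  ∀ (m : ℕ) (f : Fin m ↪ Fin n), 0 < m →
    ∃ (y : Fin m) (j : ℕ) (x : Fin j → Fin m), j ≤ k ∧ IsFunctionOf (G.comap f) y x

/-- **Q2 is false.** -/
theorem result :
    ∃ X : ∀ n : ℕ, SimpleGraph (Fin n) → Prop,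
      Hereditary X ∧
      (∀ (n : ℕ) (G : SimpleGraph (Fin n)), X n G → FunctionalityLE G 30000) ∧
      ¬ ∃ (c : ℝ) (D : List Bool → List Bool → Prop),
        ∀ (n : ℕ) (G : SimpleGraph (Fin n)), X n G →
          ∃ l : Fin n → List Bool,
            (∀ v, ((l v).length : ℝ) ≤ c * Real.logb 2 n) ∧
            ∀ u v, u ≠ v → (G.Adj u v ↔ D (l u) (l v)) := by
  refine ⟨Helper61.IR.Cls, ?_, ?_, ?_⟩
  · intro n m G f h
    exact Helper61.IR.cls_comap f h
  · intro n G h m f hm
    obtain ⟨y, j, x, hj, hx, hf⟩ := Helper61.IR.cls_fun Helper61.IR.good_func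
      (Helper61.IR.cls_comap f h) hm
    exact ⟨y, j, x, hj, hx, hf⟩
  · rintro ⟨c, D, h⟩
    exact Helper61.IR.no_labels Helper61.IR.lower Helper61.IR.num_L Helper61.IR.list_card c D h

end Pool.Agent.Results.MP_87963b_co.NoImplicitRepresentation
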